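import Pool.Agent.Helper80.PR.Label
import Pool.Agent.Helper43.SP.Adic
import Pool.Agent.Helper43.SP2.Transfer
import Pool.Agent.Helper43.SP2.Z
import Pool.Agent.Helper98.PZ.Z

/-!
MP_3976d4_co, project PR: automorphisms whose periodic points contain no chain of four elements.
-/

set_option autoImplicit false

namespace Pool.Agent.Helper80.PR

open scoped Classical
open Pool.Agent.Helper43.SP (Ch er emp sg er_coe FinLen)
open Pool.Agent.Helper43.SP.FK
open Pool.Agent.Helper43.SP2 (gex_iff gex_of_fill intFill_univ)
open Pool.Agent.Helper98.PZ (conn_of_gex injF_of_gex intFill_sub)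

noncomputable section

variable {X : Type*} [PartialOrder X]

/-- Smith's theorem on an invariant subset. -/
lemma smith_on {p : ℕ} (hp : p.Prime) {k : Type*} [Field k] [CharP k p] (hn : FinLen X)
    (g : X ≃o X) (hg : ∀ x, ∃ a, g^[p ^ a] x = x) (T : Set X) (hgT : ∀ x ∈ T, g x ∈ T)
    (hex : GEx k T) : GEx k {x | x ∈ T ∧ g x = x} := by
  have hit : ∀ n : ℕ, ∀ x ∈ T, g^[n] x ∈ T := by
    intro n
    induction n with
    | zero => exact fun x hx => hx
    | succ n ih =>
      intro x hx
      rw [Function.iterate_succ_apply']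
      exact hgT _ (ih x hx)
  have hsymm : ∀ x ∈ T, g.symm x ∈ T := by
    intro x hx
    obtain ⟨a, ha⟩ := hg (g.symm x)
    obtain ⟨m, hm⟩ : ∃ m, p ^ a = m + 1 := ⟨p ^ a - 1, by have := pow_pos hp.pos a; omega⟩
    rw [hm, Function.iterate_succ_apply, g.apply_symm_apply] at ha
    rw [← ha]
    exact hit m x hx
  let g' : T ≃o T :=
    { toFun := fun x => ⟨g x.1, hgT x.1 x.2⟩
      invFun := fun x => ⟨g.symm x.1, hsymm x.1 x.2⟩
      left_inv := fun x => Subtype.ext (g.symm_apply_apply x.1)
      right_inv := fun x => Subtype.ext (g.apply_symm_apply x.1)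
      map_rel_iff' := by
        intro x y
        exact g.le_iff_le }
  have hg'c : ∀ n : ℕ, ∀ x : T, ((g')^[n] x).1 = g^[n] x.1 := by
    intro n x
    induction n with
    | zero => rfl
    | succ n ih =>
      rw [Function.iterate_succ_apply', Function.iterate_succ_apply', ← ih]
      rfl
  have h1 : GEx k (Set.univ : Set T) := by
    rw [gex_iff k T Set.univ, Set.image_univ, Subtype.range_coe_subtype]
    exact hex
  have h2 := smithLF g' hp (fun x => by
    obtain ⟨a, ha⟩ := hg x.1
    exact ⟨a, Subtype.ext (by rw [hg'c, ha])⟩) (finLen_sub hn _) h1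
  rw [gex_iff] at h2
  have h3 : Subtype.val '' {x : T | g' x = x} = {x | x ∈ T ∧ g x = x} := by
    ext x
    constructor
    · rintro ⟨y, hy, rfl⟩
      exact ⟨y.2, congrArg Subtype.val hy⟩
    · rintro ⟨hx, hgx⟩
      exact ⟨⟨x, hx⟩, Subtype.ext hgx, rfl⟩
  rw [h3] at h2
  exact h2

variable {Q : Type*} [PartialOrder Q] (F : Q ≃o Q)

/-- periodic points with period prime to the primes of `B` -/
def TB (B : Finset ℕ) : Set (PK F) :=
  {y | ∀ p ∈ B, p.Prime → ∃ j, ¬ p ∣ j ∧ F^[j] y.1 = y.1}

lemma TB_ok (hnK : FinLen (PK F)) (no4 : ∀ S : Ch (PK F), S.1.card ≤ 3)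
    (hJ : InjF (PK F)) (hQ : GEx ℚ (Set.univ : Set (PK F))) (B : Finset ℕ) :
    Conn (TB F B) ∧ IntFill (TB F B) := by
  induction B using Finset.induction_on with
  | empty =>
    have h1 : TB F ∅ = Set.univ := by
      ext y
      simp [TB]
    rw [h1]
    exact ⟨conn_of_gex hQ, intFill_univ hQ hJ⟩
  | insert p B _ ih =>
    by_cases hp : p.Prime
    · have hpf : Fact p.Prime := ⟨hp⟩
      have h1 : TB F (insert p B) = {y | y ∈ TB F B ∧ gI F hp y = y} := by
        ext y
        constructor
        · intro h
          exact ⟨fun q hq => h q (Finset.mem_insert_of_mem hq),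
            (gI_fix F hp y).mpr (h p (Finset.mem_insert_self _ _) hp)⟩
        · rintro ⟨h, h'⟩ q hq hqp
          rcases Finset.mem_insert.mp hq with rfl | hq
          · exact (gI_fix F hp y).mp h'
          · exact h q hq hqp
      have h2 : GEx (ZMod p) (TB F B) := gex_of_fill no4 ih.1 ih.2 hJ p
      have h3 : GEx (ZMod p) (TB F (insert p B)) := by
        rw [h1]
        refine smith_on hp hnK (gI F hp) (gI_pper F hp) _ (fun y hy q hq hqp => ?_) h2
        obtain ⟨j, hj, hjy⟩ := hy q hq hqp
        refine ⟨j, hj, ?_⟩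
        obtain ⟨e, he, hye⟩ := y.2
        rw [gI_apply, gg_eq F hp he hye le_rfl]
        exact per_iter F hjy _
      refine ⟨conn_of_gex h3, intFill_sub (p := p) ?_ hJ h3 ih.2⟩
      intro y hy q hq
      exact hy q (Finset.mem_insert_of_mem hq)
    · have h1 : TB F (insert p B) = TB F B := by
        ext y
        constructor
        · intro h q hq
          exact h q (Finset.mem_insert_of_mem hq)
        · intro h q hq hqp
          rcases Finset.mem_insert.mp hq with rfl | hq
          · exact absurd hqp hp
          · exact h q hq hqp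
      rw [h1]
      exact ih

/-- An order automorphism of a poset of bounded length with acyclic ultrapower has a fixed point, if
its periodic points contain no chain of four elements. -/
theorem fixed_of_no4 (hn : FinLen Q) (hex : ∀ (k : Type) [Field k], Exact k (UP Q))
    (h4 : ∀ S : Ch (PK F), S.1.card ≤ 3) : ∃ y, F y = y := by
  have hnK : FinLen (PK F) := finLen_sub hn _
  have hJ : InjF (PK F) := injF_of_gex h4 fun q _ => per_exact F hn (hex (ZMod q))
  have hTB := TB_ok F hnK h4 hJ (per_exact F hn (hex ℚ))
  set lab : PK F → Finset ℕ := fun y => (Function.minimalPeriod F y.1).primeFactors with hlab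
  have hpos : ∀ y : PK F, 0 < Function.minimalPeriod F y.1 := by
    intro y
    obtain ⟨e, he, hy⟩ := y.2
    exact Function.IsPeriodicPt.minimalPeriod_pos he hy
  have h2 : Fact (Nat.Prime 2) := ⟨Nat.prime_two⟩
  obtain ⟨y, hy⟩ := label_lemma (ZMod 2) hnK lab (fun B => by
    have h1 : XB lab B = TB F B := by
      ext y
      change Disjoint (lab y) B ↔ _
      rw [Finset.disjoint_left]
      constructor
      · intro h q hq hqp
        refine ⟨Function.minimalPeriod F y.1, fun hd => ?_, Function.iterate_minimalPeriod⟩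
        exact h (Nat.mem_primeFactors.mpr ⟨hqp, hd, (hpos y).ne'⟩) hq
      · intro h q hq hqB
        have hqp := Nat.prime_of_mem_primeFactors hq
        obtain ⟨j, hj, hjy⟩ := h q hqB hqp
        apply hj
        have hd : Function.minimalPeriod F y.1 ∣ j := Function.IsPeriodicPt.minimalPeriod_dvd hjy
        exact (Nat.dvd_of_mem_primeFactors hq).trans hd
    rw [h1]
    exact gex_of_fill h4 (hTB B).1 (hTB B).2 hJ 2)
  refine ⟨y.1, ?_⟩
  have h3 : Function.minimalPeriod F y.1 = 1 := by
    rcases Nat.primeFactors_eq_empty.mp hy with h | h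
    · exact absurd h (hpos y).ne'
    · exact h
  exact Function.minimalPeriod_eq_one_iff_isFixedPt.mp h3

end

end Pool.Agent.Helper80.PR
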