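import Pool.Agent.Helper80.PR.Flow

/-!
MP_3976d4_co, project PR: an acyclic poset without chains of three elements is a tree, and an
automorphism with finite orbits has a fixed point on it.
-/

set_option autoImplicit false

namespace Pool.Agent.Helper80.PR

open scoped Classical
open Relation
open Pool.Agent.Helper43.SP (Ch er emp sg er_coe FinLen mapCh mapCh_coe mem_mapCh exists_least)
open Pool.Agent.Helper43.SP.FK

noncomputable section

variable {k : Type*} [Field k] {X : Type*} [PartialOrder X]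

/-- no chain of three elements -/
def NoThree (U : Set X) : Prop := ∀ x ∈ U, ∀ y ∈ U, ∀ z ∈ U, x < y → y < z → False

/-- comparable elements of a set -/
def adj (U : Set X) (a b : X) : Prop := a ∈ U ∧ b ∈ U ∧ (a ≤ b ∨ b ≤ a)

lemma adj.mono {U U' : Set X} (h : U ⊆ U') {a b : X} (hab : adj U a b) : adj U' a b :=
  ⟨h hab.1, h hab.2.1, hab.2.2⟩

lemma adj.symm {U : Set X} {a b : X} (hab : adj U a b) : adj U b a :=
  ⟨hab.2.1, hab.1, hab.2.2.symm⟩

lemma reach_symm {U : Set X} {a b : X} (h : ReflTransGen (adj U) a b) :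
    ReflTransGen (adj U) b a := by
  induction h with
  | refl => exact ReflTransGen.refl
  | tail _ h2 ih => exact (ReflTransGen.single h2.symm).trans ih

lemma sg_coe (x : X) : (sg x : Ch X).1 = {x} := rfl

/-- the chain of two elements -/
def pc (a b : X) (h : a < b) : Ch X := ⟨{a, b}, by
  intro x hx y hy _
  simp only [Finset.coe_insert, Finset.coe_singleton, Set.mem_insert_iff,
    Set.mem_singleton_iff] at hx hy
  rcases hx with rfl | rfl <;> rcases hy with rfl | rfl
  · exact Or.inl le_rfl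
  · exact Or.inl h.le
  · exact Or.inr h.le
  · exact Or.inl le_rfl⟩

lemma bd_pc (a b : X) (h : a < b) :
    bd k X (dl k (pc a b h)) = dl k (sg b) - dl k (sg a) := by
  have hne : a ≠ b := h.ne
  have e1 : er (pc a b h) a = sg b := by
    apply Subtype.ext
    rw [er_coe, sg_coe]
    ext z
    simp only [pc, Finset.mem_erase, Finset.mem_insert, Finset.mem_singleton]
    constructor
    · rintro ⟨h1, h2 | h2⟩
      · exact absurd h2 h1
      · exact h2
    · rintro rfl
      exact ⟨Ne.symm hne, Or.inr rfl⟩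
  have e2 : er (pc a b h) b = sg a := by
    apply Subtype.ext
    rw [er_coe, sg_coe]
    ext z
    simp only [pc, Finset.mem_erase, Finset.mem_insert, Finset.mem_singleton]
    constructor
    · rintro ⟨h1, h2 | h2⟩
      · exact h2
      · exact absurd h2 h1
    · rintro rfl
      exact ⟨hne, Or.inl rfl⟩
  have s1 : sgn k (pc a b h) a = 1 := by
    unfold sgn
    have : (pc a b h).1.filter (· < a) = ∅ := by
      rw [Finset.filter_eq_empty_iff]
      intro z hz hza
      simp only [pc, Finset.mem_insert, Finset.mem_singleton] at hz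
      rcases hz with rfl | rfl
      · exact lt_irrefl _ hza
      · exact lt_irrefl _ (h.trans hza)
    rw [this]
    simp
  have s2 : sgn k (pc a b h) b = -1 := by
    unfold sgn
    have : (pc a b h).1.filter (· < b) = {a} := by
      ext z
      simp only [pc, Finset.mem_filter, Finset.mem_insert, Finset.mem_singleton]
      constructor
      · rintro ⟨rfl | rfl, hz⟩
        · rfl
        · exact absurd hz (lt_irrefl _)
      · rintro rfl
        exact ⟨Or.inl rfl, h⟩
    rw [this]
    simp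
  rw [bd_dl]
  change ∑ y ∈ ({a, b} : Finset X), sgn k (pc a b h) y • dl k (er (pc a b h) y) = _
  rw [Finset.sum_insert (by rw [Finset.mem_singleton]; exact hne), Finset.sum_singleton, s1, s2,
    e1, e2, one_smul, neg_smul, one_smul, sub_eq_add_neg]

lemma eq_pc {S : Ch X} (h : S.1.card = 2) : ∃ a b, ∃ hab : a < b, S = pc a b hab := by
  obtain ⟨a, b, hne, hS⟩ := Finset.card_eq_two.mp h
  have ha : a ∈ S.1 := by rw [hS]; simp
  have hb : b ∈ S.1 := by rw [hS]; simp
  rcases S.2.total ha hb with h1 | h1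
  · exact ⟨a, b, lt_of_le_of_ne h1 hne, Subtype.ext hS⟩
  · refine ⟨b, a, lt_of_le_of_ne h1 (Ne.symm hne), Subtype.ext ?_⟩
    rw [hS]
    exact Finset.pair_comm a b

lemma eq_sg {S : Ch X} (h : S.1.card = 1) : ∃ a, S = sg a := by
  obtain ⟨a, ha⟩ := Finset.card_eq_one.mp h
  exact ⟨a, Subtype.ext ha⟩

/-- Acyclic sets are connected. -/
lemma connected {U : Set X} (hex : GEx k U) {x y : X} (hx : x ∈ U) (hy : y ∈ U) :
    ReflTransGen (adj U) x y := by
  by_contra hcon
  have hsx : Supp (InU U) (dl k (sg x : Ch X)) := Supp.dl (by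
    intro z hz
    rw [sg_coe, Finset.coe_singleton, Set.mem_singleton_iff] at hz
    rw [hz]; exact hx)
  have hsy : Supp (InU U) (dl k (sg y : Ch X)) := Supp.dl (by
    intro z hz
    rw [sg_coe, Finset.coe_singleton, Set.mem_singleton_iff] at hz
    rw [hz]; exact hy)
  obtain ⟨w, hw1, hw2, hw3⟩ := hex 1 (dl k (sg y) - dl k (sg x)) (Supp.sub hsy hsx)
    (Supp.sub (Supp.dl (by simp [sg])) (Supp.dl (by simp [sg])))
    (by rw [map_sub, bd_sg, bd_sg, sub_self])
  set ep : (Ch X →₀ k) →ₗ[k] k :=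
    opOf (fun S : Ch X => if ∃ z ∈ S.1, ReflTransGen (adj U) x z then (1 : k) else 0) with hep
  have h0 : (ep.comp (bd k X)) w = (0 : (Ch X →₀ k) →ₗ[k] k) w := by
    refine Supp.eq (R := fun S : Ch X => InU U S ∧ S.1.card = 2) ?_ (fun S hS => ?_)
    · rintro S ⟨hS1, hS2⟩
      obtain ⟨a, b, hab, rfl⟩ := eq_pc hS2
      rw [LinearMap.comp_apply, bd_pc, map_sub, hep, opOf_dl, opOf_dl, LinearMap.zero_apply,
        sub_eq_zero]
      have haU : a ∈ U := hS1 (by simp [pc])
      have hbU : b ∈ U := hS1 (by simp [pc])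
      have hiff : (∃ z ∈ (sg b : Ch X).1, ReflTransGen (adj U) x z) ↔
          (∃ z ∈ (sg a : Ch X).1, ReflTransGen (adj U) x z) := by
        constructor
        · rintro ⟨z, hz, hr⟩
          rw [sg_coe, Finset.mem_singleton] at hz
          subst hz
          exact ⟨a, by rw [sg_coe]; simp, hr.tail ⟨hbU, haU, Or.inr hab.le⟩⟩
        · rintro ⟨z, hz, hr⟩
          rw [sg_coe, Finset.mem_singleton] at hz
          subst hz
          exact ⟨b, by rw [sg_coe]; simp, hr.tail ⟨haU, hbU, Or.inl hab.le⟩⟩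
      by_cases h : ∃ z ∈ (sg b : Ch X).1, ReflTransGen (adj U) x z
      · rw [if_pos h, if_pos (hiff.mp h)]
      · rw [if_neg h, if_neg (fun h' => h (hiff.mpr h'))]
    · by_cases hS1 : InU U S
      · exact hw2 S (fun h => hS ⟨hS1, h⟩)
      · exact hw1 S hS1
  rw [LinearMap.comp_apply, hw3, map_sub, hep, opOf_dl, opOf_dl, LinearMap.zero_apply,
    if_neg, if_pos, zero_sub, neg_eq_zero] at h0
  · exact one_ne_zero h0
  · exact ⟨x, by rw [sg_coe]; simp, ReflTransGen.refl⟩
  · rintro ⟨z, hz, hr⟩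
    rw [sg_coe, Finset.mem_singleton] at hz
    subst hz
    exact hcon hr

lemma fill_walk {T : Set X} {x z : X} (h : ReflTransGen (adj T) x z) :
    ∃ w : Ch X →₀ k, Supp (InU T) w ∧ Hom 2 w ∧ bd k X w = dl k (sg z) - dl k (sg x) := by
  induction h with
  | refl => exact ⟨0, Supp.zero _, Supp.zero _, by rw [map_zero, sub_self]⟩
  | @tail a b _ h2 ih =>
    obtain ⟨w, hw1, hw2, hw3⟩ := ih
    have hin : ∀ a b : X, ∀ hab : a < b, a ∈ T → b ∈ T → InU T (pc a b hab) := by
      intro a b hab ha hb z hz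
      simp only [pc, Finset.coe_insert, Finset.coe_singleton, Set.mem_insert_iff,
        Set.mem_singleton_iff] at hz
      rcases hz with rfl | rfl
      · exact ha
      · exact hb
    have hcd : ∀ a b : X, ∀ hab : a < b, (pc a b hab).1.card = 2 := by
      intro a b hab
      exact Finset.card_pair hab.ne
    by_cases heq : a = b
    · subst heq
      exact ⟨w, hw1, hw2, hw3⟩
    · rcases h2.2.2 with h | h
      · have hab : a < b := lt_of_le_of_ne h heq
        refine ⟨w + dl k (pc a b hab), Supp.add hw1 (Supp.dl (hin _ _ _ h2.1 h2.2.1)),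
          Supp.add hw2 (Supp.dl (hcd _ _ _)), ?_⟩
        rw [map_add, hw3, bd_pc]
        abel
      · have hab : b < a := lt_of_le_of_ne h (Ne.symm heq)
        refine ⟨w - dl k (pc b a hab), Supp.sub hw1 (Supp.dl (hin _ _ _ h2.2.1 h2.1)),
          Supp.sub hw2 (Supp.dl (hcd _ _ _)), ?_⟩
        rw [map_sub, hw3, bd_pc]
        abel

lemma eq_zero_of_card {U : Set X} (h3 : NoThree U) {i : ℕ} (hi : 3 ≤ i) {v : Ch X →₀ k}
    (hv : Supp (InU U) v) (hvi : Hom i v) : v = 0 := by
  ext S
  rw [Finsupp.zero_apply]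
  by_contra hne
  have hmem : S ∈ v.support := Finsupp.mem_support_iff.mpr hne
  have hS1 : InU U S := hv.mem hmem
  have hS2 : S.1.card = i := hvi.mem hmem
  obtain ⟨x, hx, hxl⟩ := exists_least S (Finset.card_pos.mp (by omega))
  have hc1 : (er S x).1.card = i - 1 := by rw [er_coe, Finset.card_erase_of_mem hx, hS2]
  obtain ⟨y, hy, hyl⟩ := exists_least (er S x) (Finset.card_pos.mp (by omega))
  have hc2 : (er (er S x) y).1.card = i - 1 - 1 := by
    rw [er_coe (er S x), Finset.card_erase_of_mem hy, hc1]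
  obtain ⟨z, hz⟩ : (er (er S x) y).1.Nonempty := Finset.card_pos.mp (by omega)
  rw [er_coe (er S x), Finset.mem_erase] at hz
  have hy' := hy
  rw [er_coe, Finset.mem_erase] at hy'
  have hz' := hz.2
  rw [er_coe, Finset.mem_erase] at hz'
  exact h3 x (hS1 hx) y (hS1 hy'.2) z (hS1 hz'.2)
    (lt_of_le_of_ne (hxl y hy'.2) (Ne.symm hy'.1)) (lt_of_le_of_ne (hyl z hz.2) (Ne.symm hz.1))

/-- A connected subset of a forest is acyclic. -/
lemma gex_of_connected {U T : Set X} (hex : GEx k U) (h3 : NoThree U) (hTU : T ⊆ U) {o : X}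
    (ho : o ∈ T) (hT : ∀ z ∈ T, ReflTransGen (adj T) o z) : GEx k T := by
  intro i v hv hvi hbd
  have hvU : Supp (InU U) v := Supp.mono (fun S hS => hS.trans hTU) hv
  rcases Nat.lt_or_ge i 1 with hi | hi
  · have hi0 : i = 0 := by omega
    subst hi0
    refine ⟨v emp • dl k (sg o), Supp.smul _ (Supp.dl ?_), Supp.smul _ (Supp.dl (by simp [sg])),
      ?_⟩
    · intro z hz
      rw [sg_coe, Finset.coe_singleton, Set.mem_singleton_iff] at hz
      rw [hz]; exact ho
    · rw [map_smul, bd_sg]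
      ext S
      rw [Finsupp.smul_apply, dl_apply, smul_eq_mul]
      by_cases hS : S = emp
      · rw [if_pos hS, hS, mul_one]
      · rw [if_neg hS, mul_zero]
        symm
        refine hvi S fun h => hS (Subtype.ext ?_)
        exact Finset.card_eq_zero.mp h
  rcases Nat.lt_or_ge i 2 with hi2 | hi2
  · have hi1 : i = 1 := by omega
    subst hi1
    have h1 : ∀ S : Ch X, ∃ w : Ch X →₀ k, Supp (InU T) w ∧ Hom 2 w ∧
        (S ∈ v.support → bd k X w = dl k S - dl k (sg o)) := by
      intro S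
      by_cases hS : S ∈ v.support
      · obtain ⟨z, rfl⟩ := eq_sg (hvi.mem hS)
        have hz : z ∈ T := hv.mem hS (by rw [sg_coe]; simp)
        obtain ⟨w, hw1, hw2, hw3⟩ := fill_walk (k := k) (hT z hz)
        exact ⟨w, hw1, hw2, fun _ => hw3⟩
      · exact ⟨0, Supp.zero _, Supp.zero _, fun h => absurd h hS⟩
    choose w hw1 hw2 hw3 using h1
    refine ⟨∑ S ∈ v.support, v S • w S, Supp.sum _ _ fun S _ => Supp.smul _ (hw1 S),
      Supp.sum _ _ fun S _ => Supp.smul _ (hw2 S), ?_⟩
    have h4 : bd k X v = (∑ S ∈ v.support, v S) • dl k emp := by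
      rw [map_eq_sum (bd k X) v, Finset.sum_smul]
      refine Finset.sum_congr rfl fun S hS => ?_
      obtain ⟨z, rfl⟩ := eq_sg (hvi.mem hS)
      rw [bd_sg]
    have h5 : ∑ S ∈ v.support, v S = 0 := by
      rw [hbd] at h4
      have h6 := congrArg (fun u : Ch X →₀ k => u emp) h4
      simp only [Finsupp.zero_apply, Finsupp.smul_apply, dl_self, smul_eq_mul, mul_one] at h6
      exact h6.symm
    rw [map_sum]
    have h7 : ∀ S ∈ v.support, bd k X (v S • w S) = v S • dl k S - v S • dl k (sg o) := by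
      intro S hS
      rw [map_smul, hw3 S hS, smul_sub]
    rw [Finset.sum_congr rfl h7, Finset.sum_sub_distrib, ← Finset.sum_smul, h5, zero_smul,
      sub_zero, ← eq_sum_dl]
  · have hv0 : v = 0 := by
      rcases Nat.lt_or_ge i 3 with hi3 | hi3
      · have hi1 : i = 2 := by omega
        subst hi1
        obtain ⟨w, hw1, hw2, hw3⟩ := hex 2 v hvU hvi hbd
        rw [← hw3, eq_zero_of_card h3 le_rfl hw1 hw2, map_zero]
      · exact eq_zero_of_card h3 hi3 hvU hvi
    exact ⟨0, Supp.zero _, Supp.zero _, by rw [map_zero, hv0]⟩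

lemma exists_walk_set {U : Set X} {x y : X} (hx : x ∈ U) (h : ReflTransGen (adj U) x y) :
    ∃ A : Finset X, x ∈ A ∧ y ∈ A ∧ (A : Set X) ⊆ U ∧
      ∀ z ∈ A, ReflTransGen (adj (A : Set X)) x z := by
  induction h with
  | refl =>
    refine ⟨{x}, by simp, by simp, by simpa using hx, fun z hz => ?_⟩
    rw [Finset.mem_singleton.mp hz]
  | @tail a b _ h2 ih =>
    obtain ⟨A, hA1, hA2, hA3, hA4⟩ := ih
    have hsub : (A : Set X) ⊆ ((insert b A : Finset X) : Set X) := by
      rw [Finset.coe_insert]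
      exact Set.subset_insert _ _
    have hmono : ∀ z, ReflTransGen (adj (A : Set X)) x z →
        ReflTransGen (adj ((insert b A : Finset X) : Set X)) x z :=
      fun z hz => hz.lift id fun _ _ h => h.mono hsub
    refine ⟨insert b A, Finset.mem_insert_of_mem hA1, Finset.mem_insert_self _ _, ?_, ?_⟩
    · rw [Finset.coe_insert]
      exact Set.insert_subset h2.2.1 hA3
    · intro z hz
      rcases Finset.mem_insert.mp hz with rfl | hz
      · exact (hmono a (hA4 a hA2)).tail ⟨hsub hA2, by simp, h2.2.2⟩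
      · exact hmono z (hA4 z hz)

/-- An automorphism with finite orbits of an acyclic set without chains of three elements has a
fixed point. -/
theorem fixed_of_noThree (hn : FinLen X) (F : X ≃o X) (U : Set X) (hFU : ∀ x ∈ U, F x ∈ U)
    (hper : ∀ x ∈ U, ∃ m, 0 < m ∧ F^[m] x = x) (hex : GEx k U) (h3 : NoThree U) :
    ∃ x ∈ U, F x = x := by
  -- a point of `U`
  obtain ⟨w, hw1, hw2, hw3⟩ := hex 0 (dl k emp) (Supp.dl (by intro z hz; simp [emp] at hz))
    (Supp.dl (by simp [emp])) bd_emp
  have hw : w ≠ 0 := by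
    rintro rfl
    rw [map_zero] at hw3
    have h6 := congrArg (fun u : Ch X →₀ k => u emp) hw3
    simp only [Finsupp.zero_apply, dl_self] at h6
    exact zero_ne_one h6
  obtain ⟨S, hS⟩ := Finsupp.support_nonempty_iff.mpr hw
  obtain ⟨o, rfl⟩ := eq_sg (hw2.mem hS)
  have ho : o ∈ U := hw1.mem hS (by rw [sg_coe]; simp)
  obtain ⟨A, hA1, hA2, hA3, hA4⟩ := exists_walk_set ho (connected hex ho (hFU o ho))
  set T : Set X := {y | ∃ i : ℕ, ∃ z ∈ A, F^[i] z = y} with hTdef
  have hFi : ∀ i : ℕ, ∀ z ∈ U, F^[i] z ∈ U := by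
    intro i
    induction i with
    | zero => intro z hz; exact hz
    | succ i ih =>
      intro z hz
      rw [Function.iterate_succ_apply']
      exact hFU _ (ih z hz)
  have hTU : T ⊆ U := by
    rintro y ⟨i, z, hz, rfl⟩
    exact hFi i z (hA3 hz)
  have hTfin : T.Finite := by
    have : T ⊆ ⋃ z ∈ (A : Set X), Set.range (fun i : ℕ => F^[i] z) := by
      rintro y ⟨i, z, hz, rfl⟩
      rw [Set.mem_iUnion₂]
      exact ⟨z, hz, i, rfl⟩
    refine Set.Finite.subset (Set.Finite.biUnion (Finset.finite_toSet A) fun z hz => ?_) this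
    obtain ⟨m, hm0, hm⟩ := hper z (hA3 hz)
    have : Set.range (fun i : ℕ => F^[i] z) ⊆ (fun i : ℕ => F^[i] z) '' (Finset.range m) := by
      rintro _ ⟨i, rfl⟩
      refine ⟨i % m, by simpa using Nat.mod_lt _ hm0, ?_⟩
      have hmp : Function.IsPeriodicPt F m z := hm
      exact hmp.iterate_mod_apply i
    exact ((Finset.finite_toSet _).image _).subset this
  have hstep : ∀ i : ℕ, ∀ a b : X, adj (A : Set X) a b → adj T (F^[i] a) (F^[i] b) := by
    rintro i a b ⟨ha, hb, hab⟩
    have hmono : Monotone (F^[i]) := F.monotone.iterate i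
    exact ⟨⟨i, a, ha, rfl⟩, ⟨i, b, hb, rfl⟩, hab.imp (fun h => hmono h) (fun h => hmono h)⟩
  have hlift : ∀ i : ℕ, ∀ z ∈ A, ReflTransGen (adj T) (F^[i] o) (F^[i] z) :=
    fun i z hz => (hA4 z hz).lift (fun a => F^[i] a) (hstep i)
  have hoT : ∀ i : ℕ, ReflTransGen (adj T) o (F^[i] o) := by
    intro i
    induction i with
    | zero => exact ReflTransGen.refl
    | succ i ih =>
      have := hlift i (F o) hA2
      rw [← Function.iterate_succ_apply] at this
      exact ih.trans this
  have hTc : ∀ z ∈ T, ReflTransGen (adj T) o z := by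
    rintro y ⟨i, z, hz, rfl⟩
    exact (hoT i).trans (hlift i z hz)
  have hTex : GEx k T := gex_of_connected hex h3 hTU (o := o) ⟨0, o, hA1, rfl⟩ hTc
  obtain ⟨M, hM1, hM2⟩ := exists_contraction _ (hTex.exOn hn)
  obtain ⟨x, hx, hfx⟩ := exists_fixed F T hTfin (by
    rintro y ⟨i, z, hz, rfl⟩
    exact ⟨i + 1, z, hz, Function.iterate_succ_apply' _ _ _⟩) M hM1 hM2
  exact ⟨x, hTU hx, hfx⟩

/-- **Fixed points of automorphisms with finite orbits** on an acyclic set which contains no ray or
no chain of three elements. -/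
theorem exists_fixed2 (hn : FinLen X) (F : X ≃o X) (U : Set X) (hFU : ∀ x ∈ U, F x ∈ U)
    (hper : ∀ x ∈ U, ∃ m, 0 < m ∧ F^[m] x = x) (hex : GEx k U)
    (h : NoThree U ∨ ¬ ∃ v : ℕ → X, Function.Injective v ∧ (∀ i, v i ∈ U) ∧
      ∀ i, v i ≤ v (i + 1) ∨ v (i + 1) ≤ v i) :
    ∃ x ∈ U, F x = x := by
  rcases h with h | h
  · exact fixed_of_noThree hn F U hFU hper hex h
  · obtain ⟨M, hM1, hM2⟩ := exists_contraction _ (hex.exOn hn)
    by_contra hcon
    push Not at hcon
    exact h (ray_of_no_fixed F U hFU M hM1 hM2 hcon)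

end

end Pool.Agent.Helper80.PR
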