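import Pool.Agent.Helper43.SP.MainE
import Pool.Agent.Helper80.PR.Tree
import Pool.Agent.Helper73.PP2.Thin

/-!
MP_3976d4_co, project PR: the core theorem for automorphisms with thin set of points of period
prime to `p`.
-/

set_option autoImplicit false

namespace Pool.Agent.Helper80.PR

open Pool.Agent.Helper43.SP (Ch FinLen)
open Pool.Agent.Helper43.SP.FK
open Pool.Agent.Helper73.PP2 (Thin)

variable {Q : Type*} [PartialOrder Q] (F : Q ≃o Q)

/-- An order automorphism of a poset of bounded length with acyclic ultrapower has a fixed point, if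
its set of points of period prime to `p` is thin. -/
theorem fixed_of_thin {p : ℕ} (hp : p.Prime) (k : Type*) [Field k] [CharP k p] (hn : FinLen Q)
    (hex : Exact k (UP Q)) (hthin : Thin {y : Q | ∃ j, ¬ p ∣ j ∧ F^[j] y = y}) :
    ∃ y, F y = y := by
  have hnK : FinLen (PK F) := finLen_sub hn _
  have h1 : GEx k {x : PK F | gI F hp x = x} :=
    smithLF (gI F hp) hp (gI_pper F hp) hnK (per_exact F hn hex)
  obtain ⟨x, _, hx⟩ := exists_fixed2 hnK (FP F) {x : PK F | gI F hp x = x}
    (fun x hx => by
      rw [Set.mem_ofPred_eq, gI_fix] at hx ⊢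
      obtain ⟨j, hj, hjx⟩ := hx
      exact ⟨j, hj, per_iter F hjx 1⟩)
    (fun x _ => by
      obtain ⟨e, he, hy⟩ := x.2
      refine ⟨e, he, Subtype.ext ?_⟩
      have : ∀ n : ℕ, ((FP F)^[n] x).1 = F^[n] x.1 := by
        intro n
        induction n with
        | zero => rfl
        | succ n ih => rw [Function.iterate_succ_apply', Function.iterate_succ_apply', FP_coe, ih]
      rw [this, hy]) h1
    (by
      rcases hthin with h | h
      · right
        rintro ⟨v, hv1, hv2, hv3⟩
        exact h ⟨fun i => (v i).1, fun i j hij => hv1 (Subtype.ext hij),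
          fun i => (gI_fix F hp _).mp (hv2 i), hv3⟩
      · left
        intro x hx y hy z hz hxy hyz
        exact h x.1 ((gI_fix F hp _).mp hx) y.1 ((gI_fix F hp _).mp hy) z.1
          ((gI_fix F hp _).mp hz) hxy hyz)
  exact ⟨x.1, congrArg Subtype.val hx⟩

end Pool.Agent.Helper80.PR
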