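import Mathlib

/-!
MP_3976d4_co, project PR: Koenig's lemma for locally finite directed graphs (an infinite reachable
set contains an injective walk).
-/

set_option autoImplicit false

namespace Pool.Agent.Helper80.PR

open scoped Classical
open Relation

noncomputable section

variable {V : Type*} (N : V → Finset V) (o : V)

/-- balls around `o` -/
def ball : ℕ → Finset V
  | 0 => {o}
  | n + 1 => ball n ∪ (ball n).biUnion N

lemma ball_mono {m n : ℕ} (h : m ≤ n) : ball N o m ⊆ ball N o n := by
  induction n, h using Nat.le_induction with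
  | base => exact Finset.Subset.refl _
  | succ n _ ih => exact ih.trans Finset.subset_union_left

lemma exists_ball {v : V} (h : ReflTransGen (fun a b => b ∈ N a) o v) : ∃ n, v ∈ ball N o n := by
  induction h with
  | refl => exact ⟨0, Finset.mem_singleton_self o⟩
  | tail _ h2 ih =>
    obtain ⟨n, hn⟩ := ih
    exact ⟨n + 1, Finset.mem_union_right _ (Finset.mem_biUnion.mpr ⟨_, hn, h2⟩)⟩

/-- the level of a vertex -/
def lev (v : V) : ℕ := sInf {n | v ∈ ball N o n}

lemma lev_mem {v : V} (h : ∃ n, v ∈ ball N o n) : v ∈ ball N o (lev N o v) :=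
  Nat.sInf_mem (s := {n | v ∈ ball N o n}) h

lemma lev_le {v : V} {n : ℕ} (h : v ∈ ball N o n) : lev N o v ≤ n := Nat.sInf_le h

/-- one step away from `o` -/
def up (a b : V) : Prop := b ∈ N a ∧ lev N o b = lev N o a + 1

lemma reach_up : ∀ n : ℕ, ∀ v : V, v ∈ ball N o n → ReflTransGen (up N o) o v := by
  intro n
  induction n with
  | zero =>
    intro v hv
    rw [ball, Finset.mem_singleton] at hv
    rw [hv]
  | succ n ih =>
    intro v hv
    by_cases hv' : v ∈ ball N o n
    · exact ih v hv'
    · have hv2 := (Finset.mem_union.mp hv).resolve_left hv'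
      obtain ⟨a, ha, hav⟩ := Finset.mem_biUnion.mp hv2
      have h1 : lev N o v ≤ n + 1 := lev_le N o hv
      have h2 : lev N o v = n + 1 := by
        by_contra hne
        exact hv' (ball_mono N o (by omega) (lev_mem N o ⟨_, hv⟩))
      have h3 : lev N o a ≤ n := lev_le N o ha
      have h4 : lev N o a = n := by
        by_contra hne
        have h5 : v ∈ ball N o (lev N o a + 1) :=
          Finset.mem_union_right _ (Finset.mem_biUnion.mpr ⟨a, lev_mem N o ⟨_, ha⟩, hav⟩)
        exact hv' (ball_mono N o (by omega) h5)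
      exact (ih a ha).tail ⟨hav, by rw [h2, h4]⟩

/-- **Koenig's lemma.** -/
theorem konig (hinf : {v | ReflTransGen (fun a b => b ∈ N a) o v}.Infinite) :
    ∃ w : ℕ → V, w 0 = o ∧ (∀ i, w (i + 1) ∈ N (w i)) ∧ Function.Injective w := by
  have h0 : {v | ReflTransGen (up N o) o v}.Infinite := by
    refine hinf.mono fun v hv => ?_
    obtain ⟨n, hn⟩ := exists_ball N o hv
    exact reach_up N o n v hn
  have hst : ∀ a : V, {v | ReflTransGen (up N o) a v}.Infinite →
      ∃ b, up N o a b ∧ {v | ReflTransGen (up N o) b v}.Infinite := by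
    intro a ha
    by_contra hcon
    push Not at hcon
    apply ha
    have hsub : {v | ReflTransGen (up N o) a v} ⊆
        {a} ∪ ⋃ b ∈ ((N a).filter (up N o a) : Set V), {v | ReflTransGen (up N o) b v} := by
      intro v hv
      rcases ReflTransGen.cases_head hv with h | ⟨b, hab, hb⟩
      · exact Or.inl h.symm
      · refine Or.inr ?_
        rw [Set.mem_iUnion₂]
        exact ⟨b, Finset.mem_coe.mpr (Finset.mem_filter.mpr ⟨hab.1, hab⟩), hb⟩
    refine Set.Finite.subset (Set.Finite.union (Set.finite_singleton a)
      (Set.Finite.biUnion (Finset.finite_toSet _) fun b hb => ?_)) hsub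
    exact hcon b (Finset.mem_filter.mp (Finset.mem_coe.mp hb)).2
  let T := {a : V // {v | ReflTransGen (up N o) a v}.Infinite}
  let nx : T → T := fun a => ⟨(hst a.1 a.2).choose, (hst a.1 a.2).choose_spec.2⟩
  have hnx : ∀ a : T, up N o a.1 (nx a).1 := fun a => (hst a.1 a.2).choose_spec.1
  let st : ℕ → T := fun n => nx^[n] ⟨o, h0⟩
  have hst2 : ∀ n, st (n + 1) = nx (st n) := fun n => Function.iterate_succ_apply' nx n _
  have hlev : ∀ n, lev N o (st n).1 = lev N o o + n := by
    intro n
    induction n with
    | zero => rfl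
    | succ n ih =>
      rw [hst2, (hnx (st n)).2, ih]
      omega
  refine ⟨fun n => (st n).1, rfl, fun n => ?_, fun m n hmn => ?_⟩
  · change (st (n + 1)).1 ∈ N (st n).1
    rw [hst2]
    exact (hnx (st n)).1
  · have h1 := hlev m
    have h2 := hlev n
    have h3 : lev N o (st m).1 = lev N o (st n).1 := congrArg (lev N o) hmn
    omega

end

end Pool.Agent.Helper80.PR
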