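import Pool.Agent.Helper43.SP.Lef
import Pool.Agent.Helper9.FX.Trail
import Pool.Agent.Helper80.PR.Konig

/-!
MP_3976d4_co, project PR: an automorphism of a contractible family of chains without fixed point
gives a flow from the empty chain to infinity, hence an infinite path of points.
-/

set_option autoImplicit false

namespace Pool.Agent.Helper80.PR

open scoped Classical
open Relation
open Pool.Agent.Helper43.SP (Ch er emp sg er_coe FinLen mapCh mapCh_coe mem_mapCh exists_least)
open Pool.Agent.Helper43.SP.FK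

noncomputable section

variable {k : Type*} [Field k] {X : Type*} [PartialOrder X]

/-- incidence number -/
def inc (k : Type*) [Field k] {X : Type*} [PartialOrder X] (T S : Ch X) : k :=
  ∑ y ∈ T.1, (if er T y = S then sgn k T y else 0)

lemma inc_eq_zero {T S : Ch X} (h : ¬ ∃ y ∈ T.1, er T y = S) : inc k T S = 0 := by
  refine Finset.sum_eq_zero fun y hy => ?_
  rw [if_neg]
  intro h'
  exact h ⟨y, hy, h'⟩

lemma bd_dl_apply (T S : Ch X) : bd k X (dl k T) S = inc k T S := by
  rw [bd_dl, Finsupp.finsetSum_apply]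
  refine Finset.sum_congr rfl fun y _ => ?_
  rw [Finsupp.smul_apply, dl_apply, smul_eq_mul]
  by_cases h : S = er T y
  · rw [if_pos h, if_pos h.symm, mul_one]
  · rw [if_neg h, if_neg (fun h' => h h'.symm), mul_zero]

lemma bd_apply (v : Ch X →₀ k) (S : Ch X) :
    bd k X v S = ∑ T ∈ v.support, v T * inc k T S := by
  rw [map_eq_sum, Finsupp.finsetSum_apply]
  refine Finset.sum_congr rfl fun T _ => ?_
  rw [Finsupp.smul_apply, bd_dl_apply, smul_eq_mul]

lemma bd_apply_of (v : Ch X →₀ k) (S : Ch X) (W : Finset (Ch X))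
    (hW : ∀ T, v T ≠ 0 → (∃ y ∈ T.1, er T y = S) → T ∈ W) :
    bd k X v S = ∑ T ∈ W, v T * inc k T S := by
  rw [bd_apply]
  have h1 : ∑ T ∈ v.support, v T * inc k T S = ∑ T ∈ v.support ∪ W, v T * inc k T S := by
    refine Finset.sum_subset Finset.subset_union_left fun T _ hT => ?_
    rw [Finsupp.notMem_support_iff.mp hT, zero_mul]
  have h2 : ∑ T ∈ W, v T * inc k T S = ∑ T ∈ v.support ∪ W, v T * inc k T S := by
    refine Finset.sum_subset Finset.subset_union_right fun T _ hT => ?_
    by_cases h0 : v T = 0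
    · rw [h0, zero_mul]
    · rw [inc_eq_zero (fun h => hT (hW T h0 h)), mul_zero]
  rw [h1, h2]

lemma op_bd (H : (Ch X →₀ k) →ₗ[k] (Ch X →₀ k)) (T : Ch X) (W : Finset (Ch X))
    (hface : ∀ y ∈ T.1, er T y ∈ W) :
    H (bd k X (dl k T)) T = ∑ S ∈ W, H (dl k S) T * inc k T S := by
  rw [bd_dl, map_sum, Finsupp.finsetSum_apply]
  have h1 : ∀ S ∈ W, H (dl k S) T * inc k T S =
      ∑ y ∈ T.1, (if er T y = S then sgn k T y * H (dl k S) T else 0) := by
    intro S _
    unfold inc
    rw [Finset.mul_sum]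
    refine Finset.sum_congr rfl fun y _ => ?_
    split_ifs
    · ring
    · rw [mul_zero]
  rw [Finset.sum_congr rfl h1, Finset.sum_comm]
  refine Finset.sum_congr rfl fun y hy => ?_
  rw [map_smul, Finsupp.smul_apply, smul_eq_mul,
    Finset.sum_ite_eq W (er T y) (fun S => sgn k T y * H (dl k S) T), if_pos (hface y hy)]

lemma inc_card {T S : Ch X} (h : inc k T S ≠ 0) : T.1.card = S.1.card + 1 := by
  by_contra hne
  apply h
  refine inc_eq_zero ?_
  rintro ⟨y, hy, rfl⟩
  apply hne
  rw [er_coe, Finset.card_erase_of_mem hy]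
  have := Finset.card_pos.mpr ⟨y, hy⟩
  omega

/-- The divergences of the flow sum to zero over a finite closed set of chains. -/
lemma flow_sum (H : (Ch X →₀ k) →ₗ[k] (Ch X →₀ k)) (W : Finset (Ch X))
    (hface : ∀ T ∈ W, ∀ y ∈ T.1, er T y ∈ W)
    (hH : ∀ S ∈ W, ∀ T, H (dl k S) T ≠ 0 → (∃ y ∈ T.1, er T y = S) → T ∈ W) :
    ∑ S ∈ W, (-1 : k) ^ S.1.card * (bd k X (H (dl k S)) S + H (bd k X (dl k S)) S) = 0 := by
  have h1 : ∀ S ∈ W, (-1 : k) ^ S.1.card * (bd k X (H (dl k S)) S + H (bd k X (dl k S)) S) =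
      (∑ T ∈ W, (-1 : k) ^ S.1.card * (H (dl k S) T * inc k T S)) +
      ∑ T ∈ W, (-1 : k) ^ S.1.card * (H (dl k T) S * inc k S T) := by
    intro S hS
    rw [bd_apply_of _ S W (hH S hS), op_bd H S W (hface S hS), mul_add, Finset.mul_sum,
      Finset.mul_sum]
  rw [Finset.sum_congr rfl h1, Finset.sum_add_distrib]
  have h2 : ∑ S ∈ W, ∑ T ∈ W, (-1 : k) ^ S.1.card * (H (dl k T) S * inc k S T) =
      ∑ S ∈ W, ∑ T ∈ W, (-1 : k) ^ T.1.card * (H (dl k S) T * inc k T S) := Finset.sum_comm
  rw [h2, ← Finset.sum_add_distrib]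
  refine Finset.sum_eq_zero fun S _ => ?_
  rw [← Finset.sum_add_distrib]
  refine Finset.sum_eq_zero fun T _ => ?_
  by_cases h0 : inc k T S = 0
  · rw [h0]
    ring
  · rw [inc_card h0, pow_succ]
    ring

lemma map_ne (F : X ≃o X) {S : Ch X} (hne : S.1.Nonempty) (hno : ∀ x ∈ S.1, F x ≠ x) :
    S ≠ mapCh F S := by
  intro h
  obtain ⟨x, hx, hleast⟩ := exists_least S hne
  have h2 : F x ∈ S.1 := by
    rw [h, mem_mapCh]
    exact hx
  have h3 : F.symm x ∈ S.1 := by
    rw [← mem_mapCh F, ← h, OrderIso.apply_symm_apply]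
    exact hx
  have h4 := hleast _ h2
  have h5 := hleast _ h3
  have h6 : F x ≤ x := by
    have := F.monotone h5
    rwa [OrderIso.apply_symm_apply] at this
  exact hno x hx (le_antisymm h6 h4)

/-- No finite closed set of chains without fixed points. -/
theorem no_finite (F : X ≃o X) (H : (Ch X →₀ k) →ₗ[k] (Ch X →₀ k)) (W : Finset (Ch X))
    (hemp : (emp : Ch X) ∈ W)
    (hface : ∀ T ∈ W, ∀ y ∈ T.1, er T y ∈ W)
    (hH : ∀ S ∈ W, ∀ T, H (dl k S) T ≠ 0 → (∃ y ∈ T.1, er T y = S) → T ∈ W)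
    (hHe : ∀ S ∈ W, bd k X (H (dl k S)) + H (bd k X (dl k S)) = dl k (mapCh F S))
    (hno : ∀ S ∈ W, ∀ x ∈ S.1, F x ≠ x) : False := by
  have h1 := flow_sum H W hface hH
  have h2 : ∀ S ∈ W, (-1 : k) ^ S.1.card * (bd k X (H (dl k S)) S + H (bd k X (dl k S)) S) =
      if (emp : Ch X) = S then 1 else 0 := by
    intro S hS
    rw [← Finsupp.add_apply, hHe S hS, dl_apply]
    rcases Finset.eq_empty_or_nonempty S.1 with he | hne
    · have hSe : S = emp := Subtype.ext he
      rw [hSe, if_pos rfl, if_pos]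
      · simp [emp]
      · apply Subtype.ext
        rw [mapCh_coe]
        simp [emp]
    · rw [if_neg (map_ne F hne (hno S hS)), mul_zero, if_neg]
      rintro rfl
      simp [emp] at hne
  rw [Finset.sum_congr rfl h2, Finset.sum_ite_eq, if_pos hemp] at h1
  exact one_ne_zero h1

/-- neighbours of a chain: chains of its image and its faces -/
def nb (H : (Ch X →₀ k) →ₗ[k] (Ch X →₀ k)) (S : Ch X) : Finset (Ch X) :=
  ((H (dl k S)).support.filter (fun T => ∃ y ∈ T.1, er T y = S)) ∪ S.1.image (er S)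

/-- **Flow to infinity.** -/
theorem ray_of_no_fixed (F : X ≃o X) (U : Set X) (hFU : ∀ x ∈ U, F x ∈ U)
    (M : (Ch X →₀ k) →ₗ[k] (Ch X →₀ k))
    (hM1 : ∀ S : Ch X, InU U S → bd k X (M (dl k S)) + M (bd k X (dl k S)) = dl k S)
    (hMs : ∀ S : Ch X, InU U S → Supp (InU U) (M (dl k S)))
    (hno : ∀ x ∈ U, F x ≠ x) :
    ∃ v : ℕ → X, Function.Injective v ∧ (∀ i, v i ∈ U) ∧
      ∀ i, v i ≤ v (i + 1) ∨ v (i + 1) ≤ v i := by
  set H : (Ch X →₀ k) →ₗ[k] (Ch X →₀ k) := M.comp (act (mapCh F)) with hH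
  have hHdl : ∀ S : Ch X, H (dl k S) = M (dl k (mapCh F S)) := by
    intro S
    rw [hH, LinearMap.comp_apply, act_dl]
  have hmap : ∀ S : Ch X, InU U S → InU U (mapCh F S) := by
    intro S hS y hy
    rw [Finset.mem_coe, mapCh_coe, Finset.mem_map] at hy
    obtain ⟨z, hz, rfl⟩ := hy
    exact hFU z (hS hz)
  have hHe : ∀ S : Ch X, InU U S →
      bd k X (H (dl k S)) + H (bd k X (dl k S)) = dl k (mapCh F S) := by
    intro S hS
    have h1 : H (bd k X (dl k S)) = M (bd k X (dl k (mapCh F S))) := by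
      rw [hH, LinearMap.comp_apply, act_bd, act_dl]
    rw [hHdl, h1]
    exact hM1 _ (hmap S hS)
  have hin : ∀ S : Ch X, ReflTransGen (fun a b => b ∈ nb H a) emp S → InU U S := by
    intro S hS
    induction hS with
    | refl => intro x hx; simp [emp] at hx
    | tail _ h2 ih =>
      rcases Finset.mem_union.mp h2 with h | h
      · have h3 := (Finset.mem_filter.mp h).1
        rw [hHdl] at h3
        exact (hMs _ (hmap _ ih)).mem h3
      · obtain ⟨y, _, rfl⟩ := Finset.mem_image.mp h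
        intro z hz
        exact ih (Finset.mem_of_mem_erase hz)
  by_cases hfin : {S | ReflTransGen (fun a b => b ∈ nb H a) (emp : Ch X) S}.Finite
  · exfalso
    refine no_finite F H hfin.toFinset ?_ ?_ ?_ ?_ ?_
    · exact hfin.mem_toFinset.mpr ReflTransGen.refl
    · intro T hT y hy
      refine hfin.mem_toFinset.mpr (ReflTransGen.tail (hfin.mem_toFinset.mp hT) ?_)
      exact Finset.mem_union_right _ (Finset.mem_image_of_mem _ hy)
    · intro S hS T hT hy
      refine hfin.mem_toFinset.mpr (ReflTransGen.tail (hfin.mem_toFinset.mp hS) ?_)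
      exact Finset.mem_union_left _ (Finset.mem_filter.mpr ⟨Finsupp.mem_support_iff.mpr hT, hy⟩)
    · intro S hS
      exact hHe S (hin S (hfin.mem_toFinset.mp hS))
    · intro S hS x hx
      exact hno x (hin S (hfin.mem_toFinset.mp hS) hx)
  · obtain ⟨w, hw0, hw1, hw2⟩ := konig (nb H) (emp : Ch X) hfin
    have hreach : ∀ i, ReflTransGen (fun a b => b ∈ nb H a) (emp : Ch X) (w i) := by
      intro i
      induction i with
      | zero => rw [hw0]
      | succ i ih => exact ih.tail (hw1 i)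
    obtain ⟨v, hv1, hv2⟩ := Pool.Agent.Helper9.FX.ray (fun i => (w i).1)
      (fun i => by
        rcases Finset.mem_union.mp (hw1 i) with h | h
        · obtain ⟨y, _, hy⟩ := (Finset.mem_filter.mp h).2
          left
          rw [← hy, er_coe]
          exact Finset.erase_subset _ _
        · obtain ⟨y, _, hy⟩ := Finset.mem_image.mp h
          right
          rw [← hy, er_coe]
          exact Finset.erase_subset _ _)
      (fun A => by
        refine Set.Subsingleton.finite fun i hi j hj => hw2 (Subtype.ext ?_)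
        rw [Set.mem_ofPred_eq] at hi hj
        exact hi.trans hj.symm)
    refine ⟨v, hv1, fun i => ?_, fun i => ?_⟩
    · obtain ⟨j, hj, _⟩ := hv2 i
      exact hin _ (hreach j) hj
    · obtain ⟨j, hj, hj'⟩ := hv2 i
      exact (w j).2.total hj hj'

end

end Pool.Agent.Helper80.PR
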