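import Pool.Agent.Helper80.PR.Tree

/-!
MP_3976d4_co, project PR: the label lemma. Let every point of a poset of bounded length carry a
finite set of labels. If, for every finite set `B` of labels, the points whose labels avoid `B` form
an acyclic poset (over a field of characteristic two), then some point carries no label.
-/

set_option autoImplicit false

namespace Pool.Agent.Helper80.PR

open scoped Classical
open Pool.Agent.Helper43.SP (Ch er emp sg er_coe FinLen)
open Pool.Agent.Helper43.SP.FK

noncomputable section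

variable {X : Type*} [PartialOrder X] {k : Type*} [Field k]

/-- points whose labels avoid `B` -/
def XB (lab : X → Finset ℕ) (B : Finset ℕ) : Set X := {x | Disjoint (lab x) B}

/-- the labels of a chain -/
def labs (lab : X → Finset ℕ) (v : Ch X →₀ k) : Finset ℕ :=
  v.support.biUnion fun S => S.1.biUnion lab

lemma mem_labs {lab : X → Finset ℕ} {v : Ch X →₀ k} {S : Ch X} (hS : v S ≠ 0) {x : X}
    (hx : x ∈ S.1) {l : ℕ} (hl : l ∈ lab x) : l ∈ labs lab v :=
  Finset.mem_biUnion.mpr ⟨S, Finsupp.mem_support_iff.mpr hS, Finset.mem_biUnion.mpr ⟨x, hx, hl⟩⟩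

lemma of_mem_labs {lab : X → Finset ℕ} {v : Ch X →₀ k} {l : ℕ} (hl : l ∈ labs lab v) :
    ∃ S, v S ≠ 0 ∧ ∃ x ∈ S.1, l ∈ lab x := by
  obtain ⟨S, hS, h⟩ := Finset.mem_biUnion.mp hl
  obtain ⟨x, hx, hl⟩ := Finset.mem_biUnion.mp h
  exact ⟨S, Finsupp.mem_support_iff.mp hS, x, hx, hl⟩

section two

variable [CharP k 2]

lemma add_self_chain (v : Ch X →₀ k) : v + v = 0 := by
  ext S
  rw [Finsupp.add_apply, CharTwo.add_self_eq_zero]
  rfl

lemma bd_two (S : Ch X) : bd k X (dl k S) = ∑ x ∈ S.1, dl k (er S x) := by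
  rw [bd_dl]
  refine Finset.sum_congr rfl fun x _ => ?_
  unfold sgn
  rw [CharTwo.neg_eq, one_pow, one_smul]

lemma sum_faces (I : Finset ℕ) (G : Finset ℕ → (Ch X →₀ k)) :
    ∑ i ∈ I, ∑ j ∈ I.erase i, G ((I.erase i).erase j) = 0 := by
  rw [Finset.sum_sigma']
  refine Finset.sum_involution (fun a _ => ⟨a.2, a.1⟩) ?_ ?_ ?_ ?_
  · rintro ⟨i, j⟩ _
    dsimp only
    rw [Finset.erase_right_comm (a := j) (b := i)]
    exact add_self_chain _
  · rintro ⟨i, j⟩ hij _ h
    simp only [Finset.mem_sigma, Finset.mem_erase] at hij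
    simp only [Sigma.mk.injEq] at h
    exact hij.2.1 h.1
  · rintro ⟨i, j⟩ hij
    simp only [Finset.mem_sigma, Finset.mem_erase] at hij ⊢
    exact ⟨hij.2.2, Ne.symm hij.2.1, hij.1⟩
  · rintro ⟨i, j⟩ _
    rfl

/-- Choice of generic chains. -/
lemma build (lab : X → Finset ℕ) (hex : ∀ B : Finset ℕ, GEx k (XB lab B)) :
    ∀ n : ℕ, ∀ A : Finset (Finset ℕ), A.card = n → (∀ I ∈ A, ∀ J, J ⊆ I → J ∈ A) → ∅ ∈ A →
    ∃ c : Finset ℕ → (Ch X →₀ k), ∃ nu : ℕ → ℕ, c ∅ = dl k emp ∧
      (∀ I ∈ A, Hom I.card (c I)) ∧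
      (∀ I ∈ A, bd k X (c I) = ∑ i ∈ I, c (I.erase i)) ∧
      (∀ I ∈ A, ∀ S, c I S ≠ 0 → ∀ x ∈ S.1, ∀ l ∈ lab x, nu l ∈ I) := by
  intro n
  induction n with
  | zero =>
    intro A hA _ h0
    rw [Finset.card_eq_zero.mp hA] at h0
    exact absurd h0 (Finset.notMem_empty _)
  | succ n ih =>
    intro A hA hdown h0
    obtain ⟨I, hI, hmax⟩ := Finset.exists_max_image A (fun J => J.card) ⟨∅, h0⟩
    by_cases hI0 : I = ∅
    · -- only the empty set
      have hall : ∀ J ∈ A, J = ∅ := by
        intro J hJ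
        have := hmax J hJ
        rw [hI0, Finset.card_empty] at this
        exact Finset.card_eq_zero.mp (Nat.le_zero.mp this)
      refine ⟨fun _ => dl k emp, fun _ => 0, rfl, ?_, ?_, ?_⟩
      · intro J hJ
        rw [hall J hJ]
        exact Supp.dl (by simp [emp])
      · intro J hJ
        rw [hall J hJ, bd_emp, Finset.sum_empty]
      · intro J _ S hS x hx
        exfalso
        apply hS
        refine dl_ne ?_
        rintro rfl
        simp [emp] at hx
    · have hIne : I.Nonempty := Finset.nonempty_iff_ne_empty.mpr hI0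
      obtain ⟨i0, hi0⟩ := hIne
      have hA'c : (A.erase I).card = n := by
        rw [Finset.card_erase_of_mem hI, hA]
        rfl
      have hdown' : ∀ J ∈ A.erase I, ∀ K, K ⊆ J → K ∈ A.erase I := by
        intro J hJ K hK
        obtain ⟨hJI, hJA⟩ := Finset.mem_erase.mp hJ
        refine Finset.mem_erase.mpr ⟨?_, hdown J hJA K hK⟩
        rintro rfl
        exact hJI (Finset.eq_of_subset_of_card_le hK (hmax J hJA)).symm
      obtain ⟨c', nu', hc0, hc1, hc2, hc3⟩ := ih (A.erase I) hA'c hdown'
        (Finset.mem_erase.mpr ⟨Ne.symm hI0, h0⟩)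
      have hface : ∀ i ∈ I, I.erase i ∈ A.erase I := by
        intro i hi
        refine Finset.mem_erase.mpr ⟨?_, hdown I hI _ (Finset.erase_subset _ _)⟩
        intro h
        have := Finset.card_erase_lt_of_mem hi
        rw [h] at this
        exact lt_irrefl _ this
      set z : Ch X →₀ k := ∑ i ∈ I, c' (I.erase i) with hz
      set V : Finset ℕ := (A.erase I).biUnion fun J => labs lab (c' J) with hV
      set W : Finset ℕ := I.biUnion fun i => labs lab (c' (I.erase i)) with hW
      have hbz : bd k X z = 0 := by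
        rw [hz, map_sum, Finset.sum_congr rfl fun i hi => hc2 _ (hface i hi)]
        exact sum_faces I c'
      have hzs : Supp (InU (XB lab (V \ W))) z := by
        refine Supp.sum _ _ fun i hi => ?_
        intro S hS
        by_contra hne
        apply hS
        intro x hx
        change Disjoint (lab x) (V \ W)
        rw [Finset.disjoint_left]
        intro l hl hl'
        refine (Finset.mem_sdiff.mp hl').2 (Finset.mem_biUnion.mpr ⟨i, hi, ?_⟩)
        exact mem_labs hne hx hl
      have hzh : Hom (I.card - 1) z := by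
        refine Supp.sum _ _ fun i hi => ?_
        have := hc1 _ (hface i hi)
        rwa [Finset.card_erase_of_mem hi] at this
      obtain ⟨w, hw1, hw2, hw3⟩ := hex (V \ W) (I.card - 1) z hzs hzh hbz
      have hcard : I.card - 1 + 1 = I.card := Nat.sub_add_cancel (Finset.card_pos.mpr ⟨i0, hi0⟩)
      rw [hcard] at hw2
      refine ⟨fun J => if J = I then w else c' J, fun l => if l ∈ V then nu' l else i0, ?_, ?_, ?_,
        ?_⟩
      · dsimp only
        rw [if_neg (Ne.symm hI0)]
        exact hc0
      · intro J hJ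
        dsimp only
        by_cases hJI : J = I
        · rw [if_pos hJI, hJI]
          exact hw2
        · rw [if_neg hJI]
          exact hc1 J (Finset.mem_erase.mpr ⟨hJI, hJ⟩)
      · intro J hJ
        dsimp only
        by_cases hJI : J = I
        · subst hJI
          rw [if_pos rfl, hw3, hz]
          refine Finset.sum_congr rfl fun i hi => ?_
          rw [if_neg (Finset.mem_erase.mp (hface i hi)).1]
        · rw [if_neg hJI, hc2 J (Finset.mem_erase.mpr ⟨hJI, hJ⟩)]
          refine Finset.sum_congr rfl fun i _ => ?_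
          rw [if_neg]
          have := hdown' J (Finset.mem_erase.mpr ⟨hJI, hJ⟩) (J.erase i) (Finset.erase_subset _ _)
          exact (Finset.mem_erase.mp this).1
      · intro J hJ S hS x hx l hl
        dsimp only at hS ⊢
        by_cases hJI : J = I
        · subst hJI
          rw [if_pos rfl] at hS
          have hxB : x ∈ XB lab (V \ W) := by
            have : InU (XB lab (V \ W)) S := hw1.mem (Finsupp.mem_support_iff.mpr hS)
            exact this hx
          split_ifs with hlV
          · have hlW : l ∈ W := by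
              by_contra hlW
              have hd : Disjoint (lab x) (V \ W) := hxB
              exact Finset.disjoint_left.mp hd hl (Finset.mem_sdiff.mpr ⟨hlV, hlW⟩)
            obtain ⟨i, hi, hli⟩ := Finset.mem_biUnion.mp hlW
            obtain ⟨S', hS', x', hx', hl'⟩ := of_mem_labs hli
            exact Finset.mem_of_mem_erase (hc3 _ (hface i hi) S' hS' x' hx' l hl')
          · exact hi0
        · rw [if_neg hJI] at hS
          have hJ' : J ∈ A.erase I := Finset.mem_erase.mpr ⟨hJI, hJ⟩
          have hlV : l ∈ V := Finset.mem_biUnion.mpr ⟨J, hJ', mem_labs hS hx hl⟩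
          rw [if_pos hlV]
          exact hc3 J hJ' S hS x hx l hl

end two

/-- number of elements of a chain above a vertex -/
def cnt (nu : X → ℕ) (S : Ch X) (j : ℕ) : ℕ := (S.1.filter fun x => nu x = j).card

/-- the degree functional on chains -/
def phi (k : Type*) [Field k] (nu : X → ℕ) (J : Finset ℕ) (S : Ch X) : k :=
  ∏ j ∈ J, (cnt nu S j : k)

lemma cnt_er (nu : X → ℕ) (S : Ch X) {x : X} (hx : x ∈ S.1) (j : ℕ) :
    (cnt nu (er S x) j : k) = (cnt nu S j : k) - (if nu x = j then 1 else 0) := by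
  unfold cnt
  have h1 : (er S x).1.filter (fun y => nu y = j) = (S.1.filter fun y => nu y = j).erase x := by
    ext z
    simp only [er_coe, Finset.mem_filter, Finset.mem_erase]
    tauto
  rw [h1]
  by_cases h : nu x = j
  · rw [if_pos h]
    have h2 : x ∈ S.1.filter fun y => nu y = j := Finset.mem_filter.mpr ⟨hx, h⟩
    rw [← Finset.card_erase_add_one h2]
    push_cast
    ring
  · rw [if_neg h, Finset.erase_eq_of_notMem, sub_zero]
    intro h3
    exact h (Finset.mem_filter.mp h3).2

lemma mul_pred [CharP k 2] (n : ℕ) : (n : k) * ((n : k) - 1) = 0 := by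
  rcases Nat.even_or_odd' n with ⟨m, rfl | rfl⟩
  · have : ((2 * m : ℕ) : k) = 0 := by
      rw [Nat.cast_mul]
      have : ((2 : ℕ) : k) = 0 := CharP.cast_eq_zero k 2
      rw [this, zero_mul]
    rw [this, zero_mul]
  · have : ((2 * m : ℕ) : k) = 0 := by
      rw [Nat.cast_mul]
      have : ((2 : ℕ) : k) = 0 := CharP.cast_eq_zero k 2
      rw [this, zero_mul]
    rw [Nat.cast_add, this, zero_add, Nat.cast_one, sub_self, mul_zero]

lemma phi_er [CharP k 2] (nu : X → ℕ) {i : ℕ} {J : Finset ℕ} (hi : i ∉ J) (S : Ch X)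
    (hS : ∀ x ∈ S.1, nu x ∈ insert i J) :
    ∑ x ∈ S.1, phi k nu J (er S x) = phi k nu (insert i J) S := by
  set g : ℕ → k := fun t => ∏ j ∈ J, ((cnt nu S j : k) - (if t = j then 1 else 0)) with hg
  have h1 : ∑ x ∈ S.1, phi k nu J (er S x) = ∑ x ∈ S.1, g (nu x) := by
    refine Finset.sum_congr rfl fun x hx => ?_
    unfold phi
    rw [hg]
    exact Finset.prod_congr rfl fun j _ => cnt_er nu S hx j
  have h2 : ∑ x ∈ S.1, g (nu x) = ∑ t ∈ insert i J, (cnt nu S t : k) * g t := by
    rw [← Finset.sum_fiberwise_of_maps_to hS (fun x => g (nu x))]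
    refine Finset.sum_congr rfl fun t _ => ?_
    rw [Finset.sum_congr rfl (g := fun _ => g t) (fun x hx => by
      rw [(Finset.mem_filter.mp hx).2]), Finset.sum_const, nsmul_eq_mul]
    rfl
  rw [h1, h2, Finset.sum_insert hi, Finset.sum_eq_zero, add_zero]
  · unfold phi
    rw [Finset.prod_insert hi]
    congr 1
    refine Finset.prod_congr rfl fun j hj => ?_
    rw [if_neg, sub_zero]
    rintro rfl
    exact hi hj
  · intro t ht
    rw [hg]
    dsimp only
    rw [← Finset.mul_prod_erase J _ ht, if_pos rfl, ← mul_assoc, mul_pred, zero_mul]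

/-- the degree functional -/
def phiH (k : Type*) [Field k] (nu : X → ℕ) (J : Finset ℕ) : (Ch X →₀ k) →ₗ[k] k :=
  opOf fun S => phi k nu J S

lemma phiH_dl (nu : X → ℕ) (J : Finset ℕ) (S : Ch X) : phiH k nu J (dl k S) = phi k nu J S :=
  opOf_dl _ S

lemma phiH_bd [CharP k 2] (nu : X → ℕ) {i : ℕ} {J : Finset ℕ} (hi : i ∉ J) {w : Ch X →₀ k}
    (hw : Supp (fun S : Ch X => ∀ x ∈ S.1, nu x ∈ insert i J) w) :
    phiH k nu J (bd k X w) = phiH k nu (insert i J) w := by
  refine Supp.eq (A := (phiH k nu J).comp (bd k X)) (B := phiH k nu (insert i J))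
    (fun S hS => ?_) hw
  rw [LinearMap.comp_apply, bd_two, map_sum, phiH_dl, ← phi_er nu hi S hS]
  exact Finset.sum_congr rfl fun x _ => phiH_dl nu J _

lemma phiH_zero (nu : X → ℕ) {t : ℕ} {J : Finset ℕ} (ht : t ∈ J) {w : Ch X →₀ k}
    (hw : Supp (fun S : Ch X => ∀ x ∈ S.1, nu x ≠ t) w) : phiH k nu J w = 0 := by
  refine (Supp.eq (A := phiH k nu J) (B := 0) (fun S hS => ?_) hw).trans rfl
  rw [phiH_dl, LinearMap.zero_apply]
  unfold phi
  refine Finset.prod_eq_zero ht ?_
  unfold cnt
  rw [Finset.filter_eq_empty_iff.mpr (fun x hx => hS x hx), Finset.card_empty, Nat.cast_zero]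

/-- **Label lemma.** -/
theorem label_lemma (k : Type*) [Field k] [CharP k 2] (hn : FinLen X) (lab : X → Finset ℕ)
    (hex : ∀ B : Finset ℕ, GEx k (XB lab B)) : ∃ x, lab x = ∅ := by
  by_contra hcon
  push Not at hcon
  have hne : ∀ x, ∃ l, l ∈ lab x := fun x => hcon x
  choose ch hch using hne
  obtain ⟨n, hn⟩ := hn
  obtain ⟨c, nu0, hc0, hc1, hc2, hc3⟩ := build (k := k) lab hex _
    (Finset.range (n + 1)).powerset rfl
    (fun I hI J hJ => Finset.mem_powerset.mpr (hJ.trans (Finset.mem_powerset.mp hI)))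
    (Finset.mem_powerset.mpr (Finset.empty_subset _))
  set nu : X → ℕ := fun x => nu0 (ch x) with hnu
  have hsupp : ∀ I, I ⊆ Finset.range (n + 1) →
      Supp (fun S : Ch X => ∀ x ∈ S.1, nu x ∈ I) (c I) := by
    intro I hI S hS
    by_contra hne
    exact hS fun x hx => hc3 I (Finset.mem_powerset.mpr hI) S hne x hx _ (hch x)
  have key : ∀ I : Finset ℕ, I ⊆ Finset.range (n + 1) → phiH k nu I (c I) = 1 := by
    intro I
    induction I using Finset.induction_on with
    | empty =>
      intro _
      rw [hc0, phiH_dl]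
      unfold phi
      rw [Finset.prod_empty]
    | insert i J hi ih =>
      intro hIJ
      have hJ : J ⊆ Finset.range (n + 1) := (Finset.subset_insert _ _).trans hIJ
      rw [← phiH_bd nu hi (hsupp _ hIJ), hc2 _ (Finset.mem_powerset.mpr hIJ), map_sum,
        Finset.sum_insert hi, Finset.erase_insert hi, ih hJ, Finset.sum_eq_zero, add_zero]
      intro t ht
      refine phiH_zero nu ht (Supp.mono (fun S hS x hx => ?_)
        (hsupp ((insert i J).erase t) ((Finset.erase_subset _ _).trans hIJ)))
      exact (Finset.mem_erase.mp (hS x hx)).1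
  have h1 := key (Finset.range (n + 1)) (Finset.Subset.refl _)
  have h2 : c (Finset.range (n + 1)) = 0 := by
    ext S
    rw [Finsupp.zero_apply]
    refine hc1 _ (Finset.mem_powerset.mpr (Finset.Subset.refl _)) S ?_
    rw [Finset.card_range]
    have := hn S
    omega
  rw [h2, map_zero] at h1
  exact zero_ne_one h1

end

end Pool.Agent.Helper80.PR
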