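import Pool.Agent.Helper80.PR.Core
import Pool.Agent.Helper80.PR.No4

/-!
MP_3976d4_co, project PR: slim maps (few periodic points) and the core theorem for them.
-/

set_option autoImplicit false

namespace Pool.Agent.Helper80.PR

open Filter
open scoped Classical
open Pool.Agent.Helper43.SP (Ch er emp sg er_coe FinLen DL FF em exists_least)
open Pool.Agent.Helper43.SP.FK
open Pool.Agent.Helper73.PP2 (Thin thin_dual per_rep em_le_iff prime_thin)

/-- The set `E` contains no chain of four elements. -/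
def No4 {P : Type*} [PartialOrder P] (E : Set P) : Prop :=
  ∀ a ∈ E, ∀ b ∈ E, ∀ c ∈ E, ∀ d ∈ E, a < b → b < c → ¬ c < d

/-- The map `f` is slim: for some prime `p` the points of period prime to `p` form a thin set, or
the periodic points contain no chain of four elements. -/
def Slim {P : Type*} [PartialOrder P] (f : P → P) : Prop :=
  (∃ p : ℕ, p.Prime ∧ Thin {x : P | ∃ j, ¬ p ∣ j ∧ f^[j] x = x}) ∨
    No4 {x : P | ∃ j, 0 < j ∧ f^[j] x = x}

variable {P : Type*} [PartialOrder P] {f : P → P}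

/-- `Slim` is self-dual. -/
lemma slim_dual (h : Slim f) :
    Slim (fun x : Pᵒᵈ => OrderDual.toDual (f (OrderDual.ofDual x))) := by
  have hit : ∀ (j : ℕ) (x : Pᵒᵈ),
      (fun x : Pᵒᵈ => OrderDual.toDual (f (OrderDual.ofDual x)))^[j] x =
        OrderDual.toDual (f^[j] (OrderDual.ofDual x)) := by
    intro j
    induction j with
    | zero => intro x; rfl
    | succ j ih =>
      intro x
      rw [Function.iterate_succ_apply, ih, Function.iterate_succ_apply]
      rfl
  rcases h with ⟨p, hp, h⟩ | h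
  · left
    refine ⟨p, hp, ?_⟩
    have h1 := thin_dual h
    have h2 : {x : Pᵒᵈ | ∃ j, ¬ p ∣ j ∧
        (fun x : Pᵒᵈ => OrderDual.toDual (f (OrderDual.ofDual x)))^[j] x = x} =
        (OrderDual.ofDual ⁻¹' {x : P | ∃ j, ¬ p ∣ j ∧ f^[j] x = x} : Set Pᵒᵈ) := by
      ext x
      constructor
      · rintro ⟨j, hj, hx⟩
        exact ⟨j, hj, (hit j x).symm.trans hx⟩
      · rintro ⟨j, hj, hx⟩
        exact ⟨j, hj, (hit j x).trans hx⟩
    rw [h2]
    exact h1
  · right
    rintro a ⟨j, hj, ha⟩ b ⟨j', hj', hb⟩ c ⟨l, hl, hc⟩ d ⟨l', hl', hd⟩ hab hbc hcd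
    exact h (OrderDual.ofDual d) ⟨l', hl', (hit l' d).symm.trans hd⟩
      (OrderDual.ofDual c) ⟨l, hl, (hit l c).symm.trans hc⟩
      (OrderDual.ofDual b) ⟨j', hj', (hit j' b).symm.trans hb⟩
      (OrderDual.ofDual a) ⟨j, hj, (hit j a).symm.trans ha⟩ hcd hbc hab

/-- Slimness carries over to the direct limit. -/
lemma slim_DL (hf : Monotone f) (h : Slim f) : Slim (FF f) := by
  rcases h with ⟨p, hp, h⟩ | h
  · exact Or.inl ⟨p, hp, prime_thin hf h⟩
  · right
    have hex : ∀ y : DL f, (∃ j, 0 < j ∧ (FF f)^[j] y = y) →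
        ∃ x : P, (∃ j, 0 < j ∧ f^[j] x = x) ∧ em f 0 x = y := by
      rintro y ⟨j, hj, hy⟩
      obtain ⟨p, hpj, hp⟩ := Nat.exists_infinite_primes (j + 1)
      obtain ⟨x, ⟨l, hl, hx⟩, hxy⟩ := per_rep (p := p) y
        ⟨j, fun hd => by have := Nat.le_of_dvd hj hd; omega, hy⟩
      exact ⟨x, ⟨l, Nat.pos_of_ne_zero (by rintro rfl; exact hl (dvd_zero p)), hx⟩, hxy⟩
    intro a ha b hb c hc d hd hab hbc hcd
    obtain ⟨a', ha', ea⟩ := hex a ha
    obtain ⟨b', hb', eb⟩ := hex b hb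
    obtain ⟨c', hc', ec⟩ := hex c hc
    obtain ⟨d', hd', ed⟩ := hex d hd
    have hlt : ∀ x y : P, (∃ j, 0 < j ∧ f^[j] x = x) → (∃ j, 0 < j ∧ f^[j] y = y) →
        em f 0 x < em f 0 y → x < y := by
      rintro x y ⟨j, hj, hx⟩ ⟨l, hl, hy⟩ hxy
      refine lt_of_le_of_ne ((em_le_iff hf hj hl hx hy).mp hxy.le) ?_
      rintro rfl
      exact lt_irrefl _ hxy
    rw [← ea, ← eb] at hab
    rw [← eb, ← ec] at hbc
    rw [← ec, ← ed] at hcd
    exact h a' ha' b' hb' c' hc' d' hd' (hlt _ _ ha' hb' hab) (hlt _ _ hb' hc' hbc)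
      (hlt _ _ hc' hd' hcd)

lemma card_le_three {X : Type*} [PartialOrder X] (h : ∀ a b c d : X, a < b → b < c → ¬ c < d)
    (S : Ch X) : S.1.card ≤ 3 := by
  by_contra hcard
  obtain ⟨a, ha, hal⟩ := exists_least S (Finset.card_pos.mp (by omega))
  have hc1 : (er S a).1.card = S.1.card - 1 := by rw [er_coe, Finset.card_erase_of_mem ha]
  obtain ⟨b, hb, hbl⟩ := exists_least (er S a) (Finset.card_pos.mp (by omega))
  have hc2 : (er (er S a) b).1.card = S.1.card - 1 - 1 := by
    rw [er_coe (er S a), Finset.card_erase_of_mem hb, hc1]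
  obtain ⟨c, hc, hcl⟩ := exists_least (er (er S a) b) (Finset.card_pos.mp (by omega))
  have hc3 : (er (er (er S a) b) c).1.card = S.1.card - 1 - 1 - 1 := by
    rw [er_coe (er (er S a) b), Finset.card_erase_of_mem hc, hc2]
  obtain ⟨d, hd⟩ : (er (er (er S a) b) c).1.Nonempty := Finset.card_pos.mp (by omega)
  rw [er_coe (er (er S a) b), Finset.mem_erase] at hd
  have hb' := hb
  rw [er_coe, Finset.mem_erase] at hb'
  have hc' := hc
  rw [er_coe (er S a), Finset.mem_erase] at hc'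
  have hab : a < b := lt_of_le_of_ne (hal b hb'.2) (Ne.symm hb'.1)
  have hbc : b < c := lt_of_le_of_ne (hbl c hc'.2) (Ne.symm hc'.1)
  have hcd : c < d := lt_of_le_of_ne (hcl d hd.2) (Ne.symm hd.1)
  exact h a b c d hab hbc hcd

variable {Q : Type*} [PartialOrder Q] (F : Q ≃o Q)

lemma card_le_of_no4 (h : No4 {x : Q | ∃ j, 0 < j ∧ F^[j] x = x}) (S : Ch (PK F)) :
    S.1.card ≤ 3 :=
  card_le_three (fun a b c d hab hbc hcd => h a.1 a.2 b.1 b.2 c.1 c.2 d.1 d.2 hab hbc hcd) S

/-- An order automorphism of a poset of bounded length with acyclic ultrapower has a fixed point, if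
its periodic points contain no chain of four elements. -/
theorem fixed_of_slim (hn : FinLen Q) (hex : ∀ (k : Type) [Field k], Exact k (UP Q))
    (h4 : ∀ a b c d : Q, (∃ j, 0 < j ∧ F^[j] a = a) → (∃ j, 0 < j ∧ F^[j] b = b) →
      (∃ j, 0 < j ∧ F^[j] c = c) → (∃ j, 0 < j ∧ F^[j] d = d) → a < b → b < c → ¬ c < d) :
    ∃ y, F y = y :=
  fixed_of_no4 F hn hex (card_le_of_no4 F fun a ha b hb c hc d hd => h4 a b c d ha hb hc hd)

/-- A slim order automorphism of a poset of bounded length with acyclic ultrapower has a fixed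
point. -/
theorem fixed_of_slimMap (hn : FinLen Q) (hex : ∀ (k : Type) [Field k], Exact k (UP Q))
    (h : Slim F) : ∃ y, F y = y := by
  rcases h with ⟨p, hp, h⟩ | h
  · have : Fact p.Prime := ⟨hp⟩
    exact fixed_of_thin F hp (ZMod p) hn (hex (ZMod p)) h
  · exact fixed_of_no4 F hn hex (card_le_of_no4 F h)

end Pool.Agent.Helper80.PR
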