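import Pool.Agent.Helper80.PR.Tree

/-!
MP_3976d4_co, project PR: integral chains and their reductions.
-/

set_option autoImplicit false

namespace Pool.Agent.Helper80.PR

open scoped Classical
open Pool.Agent.Helper43.SP (Ch er emp sg er_coe FinLen)
open Pool.Agent.Helper43.SP.FK

noncomputable section

variable {X : Type*} [PartialOrder X]

/-- integral incidence number -/
def incZ {X : Type*} [PartialOrder X] (T S : Ch X) : ℤ :=
  ∑ y ∈ T.1, (if er T y = S then (-1) ^ (T.1.filter (· < y)).card else 0)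

/-- integral boundary of a chain -/
def bdZ0 (T : Ch X) : Ch X →₀ ℤ :=
  ∑ y ∈ T.1, Finsupp.single (er T y) ((-1 : ℤ) ^ (T.1.filter (· < y)).card)

/-- integral boundary operator -/
def bdZ : (Ch X →₀ ℤ) →ₗ[ℤ] (Ch X →₀ ℤ) := Finsupp.linearCombination ℤ bdZ0

/-- reduction of integral chains to a field -/
def red (k : Type*) [Field k] (v : Ch X →₀ ℤ) : Ch X →₀ k :=
  v.mapRange (fun n : ℤ => (n : k)) Int.cast_zero

lemma red_apply (k : Type*) [Field k] (v : Ch X →₀ ℤ) (S : Ch X) : red k v S = (v S : k) := rfl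

lemma red_add (k : Type*) [Field k] (v w : Ch X →₀ ℤ) : red k (v + w) = red k v + red k w := by
  ext S
  simp [red_apply]

lemma red_sub (k : Type*) [Field k] (v w : Ch X →₀ ℤ) : red k (v - w) = red k v - red k w := by
  ext S
  simp [red_apply]

lemma red_smul (k : Type*) [Field k] (n : ℤ) (v : Ch X →₀ ℤ) :
    red k (n • v) = (n : k) • red k v := by
  ext S
  simp [red_apply]

lemma red_zero (k : Type*) [Field k] : red k (0 : Ch X →₀ ℤ) = 0 := by
  ext S
  simp [red_apply]

/-- reduction as an additive homomorphism -/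
def redH (k : Type*) [Field k] : (Ch X →₀ ℤ) →+ (Ch X →₀ k) where
  toFun := red k
  map_zero' := red_zero k
  map_add' := red_add k

lemma redH_apply (k : Type*) [Field k] (v : Ch X →₀ ℤ) : redH k v = red k v := rfl

lemma red_single (k : Type*) [Field k] (S : Ch X) (n : ℤ) :
    red k (Finsupp.single S n) = (n : k) • dl k S := by
  ext T
  rw [red_apply, Finsupp.smul_apply, dl_apply, Finsupp.single_apply]
  by_cases h : S = T
  · rw [if_pos h, if_pos h.symm]
    simp
  · rw [if_neg h, if_neg (fun h' => h h'.symm)]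
    simp

lemma red_bdZ0 (k : Type*) [Field k] (T : Ch X) : red k (bdZ0 T) = bd k X (dl k T) := by
  rw [bd_dl, ← redH_apply, bdZ0, map_sum]
  refine Finset.sum_congr rfl fun y _ => ?_
  rw [redH_apply, red_single]
  unfold sgn
  congr 1
  push_cast
  rfl

lemma bdZ_single (T : Ch X) (n : ℤ) : bdZ (Finsupp.single T n) = n • bdZ0 T := by
  unfold bdZ
  rw [Finsupp.linearCombination_single]

/-- Reduction commutes with the boundary. -/
lemma red_bdZ (k : Type*) [Field k] (v : Ch X →₀ ℤ) : red k (bdZ v) = bd k X (red k v) := by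
  induction v using Finsupp.induction_linear with
  | zero => rw [map_zero, red_zero, map_zero]
  | add v w hv hw => rw [map_add, red_add, red_add, map_add, hv, hw]
  | single T n => rw [bdZ_single, red_smul, red_bdZ0, red_single, map_smul]

/-- Integral chains are determined by their rational reductions. -/
lemma red_inj {v w : Ch X →₀ ℤ} (h : red ℚ v = red ℚ w) : v = w := by
  ext S
  have := congrArg (fun u : Ch X →₀ ℚ => u S) h
  simp only [red_apply] at this
  exact_mod_cast this

lemma bdZ_bdZ (v : Ch X →₀ ℤ) : bdZ (bdZ v) = 0 := by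
  apply red_inj
  rw [red_bdZ, red_bdZ, bd_bd, red_zero]

/-- support conditions for integral chains -/
def SuppZ (R : Ch X → Prop) (v : Ch X →₀ ℤ) : Prop := ∀ S, ¬ R S → v S = 0

lemma SuppZ.red {R : Ch X → Prop} {v : Ch X →₀ ℤ} (h : SuppZ R v) (k : Type*) [Field k] :
    Supp R (red k v) := by
  intro S hS
  rw [red_apply, h S hS, Int.cast_zero]

lemma suppZ_of_red {R : Ch X → Prop} {v : Ch X →₀ ℤ} (h : Supp R (PR.red ℚ v)) :
    SuppZ R v := by
  intro S hS
  have := h S hS
  rw [red_apply] at this
  exact_mod_cast this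

/-- integral one-cycles of `T` bound in `T` -/
def IntFill (T : Set X) : Prop :=
  ∀ v : Ch X →₀ ℤ, SuppZ (InU T) v → SuppZ (fun S => S.1.card = 2) v → bdZ v = 0 →
    ∃ w : Ch X →₀ ℤ, SuppZ (InU T) w ∧ SuppZ (fun S => S.1.card = 3) w ∧ bdZ w = v

/-- the boundary is injective on chains of three elements over all prime fields -/
def InjF (X : Type*) [PartialOrder X] : Prop :=
  ∀ q : ℕ, ∀ hq : Fact q.Prime, ∀ w : Ch X →₀ ZMod q, Hom 3 w → bd (ZMod q) X w = 0 → w = 0

/-- non-empty and connected -/
def Conn (T : Set X) : Prop := ∃ o ∈ T, ∀ z ∈ T, Relation.ReflTransGen (adj T) o z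

end

end Pool.Agent.Helper80.PR
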